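import Mathlib
import Pool.Agent.H833R2.AECDefs
import Pool.Agent.H833R2.AECNoExp

set_option autoImplicit false

open TreeWRT Filter Topology

namespace Pool.Agent.Results.MP_fcdc94_gt.LogGrowth

/-- G = SU(2), M = the closed oriented 3-manifold given by surgery along the framed link `linkM`: a Hopf link with
framings 0, 0, each component of which has two meridian circles with framings 2 and -2. As a function of
r = k + 2, Z_k (M) = tau_r (M) / tau_r (S^1 x S^2) is `Zinv linkM r`.
1. For every finite list c 0, ..., c m of real numbers (in particular for the list of the values of the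
Chern-Simons functional on the flat connections on M), Z_k (M) has no asymptotic expansion of the conjecture
with phases c 0, ..., c m.
2. The reason is that (-1)^r Z_k (M) is asymptotic to (√2 / π) √r log r. -/
theorem result :
    (∀ (m : ℕ) (c : Fin (m + 1) → ℝ), ¬ HasExpansion (Zinv linkM) m c) ∧
    Tendsto (fun r : ℕ => (-1 : ℂ) ^ r * Zinv linkM r / ((Real.sqrt r * Real.log r : ℝ) : ℂ)) atTop
      (𝓝 ((Real.sqrt 2 / Real.pi : ℝ) : ℂ)) :=
  ⟨no_expansion, Z_growth⟩

end Pool.Agent.Results.MP_fcdc94_gt.LogGrowth
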